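import Mathlib

/-!
Functional extensions (Forti), their `S`-topology, and topological hyperextensions.
-/

namespace Pool.Agent.R603.HE

open Set

open Classical in
/-- The characteristic function of the equality of two functions, with given values `zero` and
`one`. -/
noncomputable def eqChar {D C E : Type} (zero one : E) (φ ψ : D → C) : D → E :=
  fun x => if φ x = ψ x then one else zero

open Classical in
/-- The characteristic function of a set, with given values `zero` and `one`. -/
noncomputable def setChar {D E : Type} (zero one : E) (A : Set D) : D → E :=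
  fun x => if x ∈ A then one else zero

/-- A functional extension of `X`, where `x0` and `x1` are the elements `0` and `1` of `X`. -/
structure FunExt (X : Type) (x0 x1 : X) where
  /-- the underlying set -/
  Y : Type
  /-- the inclusion -/
  incl : X → Y
  incl_injective : Function.Injective incl
  proper : ∃ ξ : Y, ξ ∉ Set.range incl
  /-- the extension of functions -/
  star : (X → X) → Y → Y
  star_incl : ∀ (f : X → X) (x : X), star f (incl x) = incl (f x)
  comp : ∀ f g : X → X, star (g ∘ f) = star g ∘ star f
  equ : ∀ f g : X → X, star (eqChar x0 x1 f g) = eqChar (incl x0) (incl x1) (star f) (star g)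
  dir : ∀ ξ η : Y, ∃ (p₁ p₂ : X → X) (ζ : Y), star p₁ ζ = ξ ∧ star p₂ ζ = η

/-- The extension of a subset. -/
def FunExt.starSet {X : Type} {x0 x1 : X} (E : FunExt X x0 x1) (A : Set X) : Set E.Y :=
  {ξ | E.star (setChar x0 x1 A) ξ = E.incl x1}

/-- The `S`-topology. -/
def FunExt.sTopology {X : Type} {x0 x1 : X} (E : FunExt X x0 x1) : TopologicalSpace E.Y :=
  TopologicalSpace.generateFrom {U | ∃ A : Set X, U = E.starSet A}

/-- A topological extension of `X`. -/
structure TopExt (X : Type) where
  /-- the underlying space -/
  Y : Type
  /-- its topology -/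
  top : TopologicalSpace Y
  t1 : T1Space Y
  /-- the inclusion -/
  incl : X → Y
  incl_injective : Function.Injective incl
  dense : Dense (Set.range incl)
  discrete : DiscreteTopology (Set.range incl)
  /-- the extension of functions -/
  star : (X → X) → Y → Y
  continuous_star : ∀ f : X → X, Continuous (star f)
  star_incl : ∀ (f : X → X) (x : X), star f (incl x) = incl (f x)
  comp : ∀ f g : X → X, star g ∘ star f = star (g ∘ f)
  ident : ∀ (f : X → X) (A : Set X), (∀ x ∈ A, f x = x) →
    ∀ ξ ∈ closure (incl '' A), star f ξ = ξ

/-- Hyperextensions. -/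
def TopExt.IsHyper {X : Type} (E : TopExt X) : Prop :=
  (∀ f g : X → X, (∀ x, f x ≠ g x) ↔ ∀ ξ : E.Y, E.star f ξ ≠ E.star g ξ) ∧
  ∃ p q : X → X, ∀ ξ η : E.Y, ∃ ζ : E.Y, E.star p ζ = ξ ∧ E.star q ζ = η

end Pool.Agent.R603.HE
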