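import Mathlib

/-!
Separation of sequences of ultrafilters along infinite subsets, generic ultrafilters under the
continuum hypothesis, and sums of Hausdorff ultrafilters.
-/

namespace Pool.Agent.R603.HE

open Filter Set Cardinal

/-- Hausdorff ultrafilters. -/
def Haus (U : Ultrafilter ℕ) : Prop :=
  ∀ f g : ℕ → ℕ, U.map f = U.map g → ∀ᶠ n in (U : Filter ℕ), f n = g n

/-- The Rudin-Keisler order. -/
def RK (V U : Ultrafilter ℕ) : Prop := ∃ f : ℕ → ℕ, U.map f = V

theorem mem_bind' {α β : Type*} (p : Ultrafilter α) (z : α → Ultrafilter β) (B : Set β) :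
    B ∈ p.bind z ↔ ∀ᶠ n in (p : Filter α), B ∈ z n := Iff.rfl

theorem exists_mem_notMem {U V : Ultrafilter ℕ} (h : U ≠ V) : ∃ B ∈ U, B ∉ V := by
  by_contra hcon
  push Not at hcon
  apply h
  have : (V : Filter ℕ) ≤ U := fun B hB => hcon B hB
  exact (Ultrafilter.coe_le_coe.1 this).symm

theorem exists_sep (z z' : ℕ → Ultrafilter ℕ) (A : Set ℕ) (hA : A.Infinite)
    (hz : ∀ n ∈ A, z n ≠ z' n) :
    ∃ A' ⊆ A, A'.Infinite ∧ ∃ B : Set ℕ, ∀ n ∈ A', B ∈ z n ∧ B ∉ z' n := by
  classical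
  have hne : (cofinite ⊓ 𝓟 A).NeBot := hA.cofinite_inf_principal_neBot
  let q : Ultrafilter ℕ := Ultrafilter.of (cofinite ⊓ 𝓟 A)
  have hqc : (q : Filter ℕ) ≤ cofinite := (Ultrafilter.of_le _).trans inf_le_left
  have hqA : ∀ᶠ n in (q : Filter ℕ), n ∈ A :=
    ((Ultrafilter.of_le _).trans inf_le_right) (mem_principal_self A)
  have hinf : ∀ S : Set ℕ, S ∈ (q : Filter ℕ) → S.Infinite := by
    intro S hS hfin
    have h1 : Sᶜ ∈ (q : Filter ℕ) := hqc hfin.compl_mem_cofinite
    exact Ultrafilter.compl_mem_iff_notMem.1 h1 hS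
  let a := q.bind z
  let b := q.bind z'
  by_cases hab : a = b
  · -- common limit
    have key : ∀ s : Finset (ℕ × Set ℕ), (∀ p ∈ s, p.1 ∈ A ∧ p.2 ∉ a ∧ (z p.1 ≠ a → p.2 ∈ z p.1) ∧
        (z' p.1 ≠ a → p.2 ∈ z' p.1)) → ∃ y : ℕ × Set ℕ, (y.1 ∈ A ∧ y.2 ∉ a ∧
        (z y.1 ≠ a → y.2 ∈ z y.1) ∧ (z' y.1 ≠ a → y.2 ∈ z' y.1)) ∧
        ∀ p ∈ s, p.1 < y.1 ∧ Disjoint p.2 y.2 := by
      intro s hs
      let C : Set ℕ := ⋂ p ∈ s, p.2ᶜ
      have hC : C ∈ a := by
        rw [← Ultrafilter.mem_coe]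
        rw [Filter.biInter_finset_mem]
        intro p hp
        exact Ultrafilter.compl_mem_iff_notMem.2 (hs p hp).2.1
      have h1 : ∀ᶠ n in (q : Filter ℕ), C ∈ z n := hC
      have h2 : ∀ᶠ n in (q : Filter ℕ), C ∈ z' n := by
        have : C ∈ b := hab ▸ hC
        exact this
      have h3 : ∀ᶠ n in (q : Filter ℕ), s.sup Prod.fst < n := by
        have : ∀ᶠ n in cofinite, s.sup Prod.fst < n := by
          rw [Nat.cofinite_eq_atTop]
          exact eventually_gt_atTop _
        exact this.filter_mono hqc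
      obtain ⟨m, hm1, hm2, hm3, hm4⟩ := (h1.and (h2.and (h3.and hqA))).exists
      have hT : ∀ w : Ultrafilter ℕ, ∃ T : Set ℕ, T ∉ a ∧ (w ≠ a → T ∈ w) := by
        intro w
        by_cases hw : w = a
        · exact ⟨∅, Ultrafilter.empty_notMem, fun h => absurd hw h⟩
        · obtain ⟨T, hT1, hT2⟩ := exists_mem_notMem hw
          exact ⟨T, hT2, fun _ => hT1⟩
      obtain ⟨T, hT1, hT2⟩ := hT (z m)
      obtain ⟨T', hT1', hT2'⟩ := hT (z' m)
      refine ⟨(m, C ∩ (T ∪ T')), ⟨hm4, ?_, ?_, ?_⟩, ?_⟩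
      · intro h
        have h4 : T ∪ T' ∈ a := Filter.mem_of_superset h Set.inter_subset_right
        rcases Ultrafilter.union_mem_iff.1 h4 with h5 | h5
        · exact hT1 h5
        · exact hT1' h5
      · intro h
        exact Filter.inter_mem hm1 (Filter.mem_of_superset (hT2 h) Set.subset_union_left)
      · intro h
        exact Filter.inter_mem hm2 (Filter.mem_of_superset (hT2' h) Set.subset_union_right)
      · intro p hp
        refine ⟨lt_of_le_of_lt (Finset.le_sup (f := Prod.fst) hp) hm3, ?_⟩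
        rw [Set.disjoint_left]
        intro x hx hx'
        have : x ∈ p.2ᶜ := by
          have h5 := hx'.1
          simp only [C, Set.mem_iInter] at h5
          exact h5 p hp
        exact this hx
    obtain ⟨f, hf, hf'⟩ := exists_seq_of_forall_finset_exists
      (fun p : ℕ × Set ℕ => p.1 ∈ A ∧ p.2 ∉ a ∧ (z p.1 ≠ a → p.2 ∈ z p.1) ∧
        (z' p.1 ≠ a → p.2 ∈ z' p.1)) (fun p y => p.1 < y.1 ∧ Disjoint p.2 y.2) key
    let n : ℕ → ℕ := fun k => (f k).1
    let D : ℕ → Set ℕ := fun k => (f k).2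
    have hn : StrictMono n := fun i j h => (hf' i j h).1
    have hD : ∀ i j, i ≠ j → Disjoint (D i) (D j) := by
      intro i j hij
      rcases lt_or_gt_of_ne hij with h | h
      · exact (hf' i j h).2
      · exact (hf' j i h).2.symm
    -- choose the infinite subfamily
    have hK : ∃ K : Set ℕ, K.Infinite ∧ (⋃ k ∈ K, D k) ∉ a := by
      by_cases h0 : (⋃ k ∈ {k : ℕ | Even k}, D k) ∈ a
      · refine ⟨{k | ¬ Even k}, ?_, ?_⟩
        · rw [Set.infinite_iff_exists_gt]
          intro k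
          exact ⟨2 * k + 1, by simp, by omega⟩
        · intro h1
          have h2 := Filter.inter_mem h0 h1
          have h3 : (⋃ k ∈ {k : ℕ | Even k}, D k) ∩ (⋃ k ∈ {k : ℕ | ¬ Even k}, D k) = ∅ := by
            rw [Set.eq_empty_iff_forall_notMem]
            rintro x ⟨h4, h5⟩
            simp only [Set.mem_iUnion] at h4 h5
            obtain ⟨i, hi, hxi⟩ := h4
            obtain ⟨j, hj, hxj⟩ := h5
            have hij : i ≠ j := by rintro rfl; exact hj hi
            exact Set.disjoint_left.1 (hD i j hij) hxi hxj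
          rw [h3] at h2
          exact Ultrafilter.empty_notMem h2
      · refine ⟨{k | Even k}, ?_, h0⟩
        rw [Set.infinite_iff_exists_gt]
        intro k
        exact ⟨2 * k + 2, by simp [Nat.even_add], by omega⟩
    obtain ⟨K, hKinf, hKa⟩ := hK
    have hE : ∀ k, ∃ E ⊆ D k, ¬ (E ∈ z (n k) ↔ E ∈ z' (n k)) := by
      intro k
      obtain ⟨hkA, hka, hkz, hkz'⟩ := hf k
      have hzz := hz (n k) hkA
      by_cases h : z (n k) = a
      · have h' : z' (n k) ≠ a := fun h'' => hzz (h.trans h''.symm)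
        refine ⟨D k, subset_rfl, fun hiff => hka ?_⟩
        rw [← h]
        exact hiff.2 (hkz' h')
      · obtain ⟨S, hS1, hS2⟩ := exists_mem_notMem hzz
        refine ⟨S ∩ D k, Set.inter_subset_right, fun hiff => hS2 ?_⟩
        exact Filter.mem_of_superset (hiff.1 (Filter.inter_mem hS1 (hkz h))) Set.inter_subset_left
    choose E hE1 hE2 using hE
    let B : Set ℕ := ⋃ k ∈ K, E k
    have hBD : B ⊆ ⋃ k ∈ K, D k := Set.biUnion_mono subset_rfl (fun k _ => hE1 k)
    have hBa : B ∉ a := fun h => hKa (Filter.mem_of_superset h hBD)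
    have hBw : ∀ k ∈ K, ∀ w : Ultrafilter ℕ, (w ≠ a → D k ∈ w) → (B ∈ w ↔ E k ∈ w) := by
      intro k hk w hw
      by_cases hwa : w = a
      · rw [hwa]
        refine ⟨fun h => absurd h hBa, fun h => absurd (Filter.mem_of_superset h (hE1 k)) (hf k).2.1⟩
      · have h1 := hw hwa
        constructor
        · intro h
          refine Filter.mem_of_superset (Filter.inter_mem h h1) ?_
          rintro x ⟨hx, hxD⟩
          simp only [B, Set.mem_iUnion] at hx
          obtain ⟨j, hj, hxj⟩ := hx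
          have : j = k := by
            by_contra hjk
            exact Set.disjoint_left.1 (hD j k hjk) (hE1 j hxj) hxD
          exact this ▸ hxj
        · intro h
          refine Filter.mem_of_superset h ?_
          intro x hx
          simp only [B, Set.mem_iUnion]
          exact ⟨k, hk, hx⟩
    have hsepK : ∀ k ∈ K, ¬ (B ∈ z (n k) ↔ B ∈ z' (n k)) := by
      intro k hk h
      rw [hBw k hk _ (hf k).2.2.1, hBw k hk _ (hf k).2.2.2] at h
      exact hE2 k h
    have hNinf : (n '' K).Infinite := hKinf.image hn.injective.injOn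
    have hNA : n '' K ⊆ A := by
      rintro _ ⟨k, _, rfl⟩
      exact (hf k).1
    have hcov : n '' K = (n '' K ∩ {m | B ∈ z m ∧ B ∉ z' m}) ∪
        (n '' K ∩ {m | B ∉ z m ∧ B ∈ z' m}) := by
      ext m
      constructor
      · intro hm
        obtain ⟨k, hk, rfl⟩ := hm
        have h1 := hsepK k hk
        by_cases h2 : B ∈ z (n k)
        · exact Or.inl ⟨⟨k, hk, rfl⟩, h2, fun h3 => h1 ⟨fun _ => h3, fun _ => h2⟩⟩
        · exact Or.inr ⟨⟨k, hk, rfl⟩, h2, by
            by_contra h3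
            exact h1 ⟨fun h => absurd h h2, fun h => absurd h h3⟩⟩
      · rintro (h | h) <;> exact h.1
    rw [hcov, Set.infinite_union] at hNinf
    rcases hNinf with h | h
    · exact ⟨_, Set.inter_subset_left.trans hNA, h, B, fun m hm => hm.2⟩
    · refine ⟨_, Set.inter_subset_left.trans hNA, h, Bᶜ, fun m hm => ?_⟩
      rw [Ultrafilter.compl_mem_iff_notMem, Ultrafilter.compl_mem_iff_notMem, not_not]
      exact hm.2
  · obtain ⟨B, hB1, hB2⟩ := exists_mem_notMem hab
    have h1 : ∀ᶠ n in (q : Filter ℕ), B ∈ z n := hB1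
    have h2 : ∀ᶠ n in (q : Filter ℕ), B ∉ z' n := Ultrafilter.eventually_not.2 hB2
    refine ⟨{n | n ∈ A ∧ B ∈ z n ∧ B ∉ z' n}, fun n hn => hn.1, hinf _ (hqA.and (h1.and h2)), B,
      fun n hn => hn.2⟩

end Pool.Agent.R603.HE
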