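import Mathlib
import Pool.Agent.R603.HE.Sep

/-!
Generic ultrafilters under the continuum hypothesis and sums of Hausdorff ultrafilters.
-/

namespace Pool.Agent.R603.HE

open Filter Set Cardinal

theorem exists_rec {O K : Type} [LinearOrder O] [WellFoundedLT O] (R : O → Set K → K → Prop)
    (h : ∀ o s, ∃ y, R o s y) : ∃ x : O → K, ∀ o, R o (x '' Set.Iio o) (x o) := by
  classical
  choose c hc using h
  let F : ∀ o : O, (∀ j : O, j < o → K) → K := fun o r => c o {y | ∃ j, ∃ hj : j < o, r j hj = y}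
  let x : O → K := WellFounded.fix (wellFounded_lt (α := O)) F
  refine ⟨x, fun o => ?_⟩
  have h1 : x o = F o (fun j _ => x j) := WellFounded.fix_eq _ _ _
  have h2 : {y | ∃ j, ∃ _ : j < o, x j = y} = x '' Set.Iio o := by
    ext y
    simp [Set.mem_image]
  rw [h1, ← h2]
  exact hc _ _

/-- A well-order of type `ω₁`. -/
abbrev O1 : Type := (aleph 1 : Cardinal.{0}).ord.ToType

theorem countable_Iio (o : O1) : (Set.Iio o).Countable := by
  rw [← Cardinal.le_aleph0_iff_set_countable, ← Cardinal.lt_aleph_one_iff]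
  refine (Cardinal.mk_Iio_lt o (by simp)).trans_eq ?_
  simp

theorem uncountable_O1 : ¬ (Set.univ : Set O1).Countable := by
  rw [← Cardinal.le_aleph0_iff_set_countable, Cardinal.mk_univ, Cardinal.mk_ord_toType, not_le]
  exact Cardinal.aleph0_lt_aleph_one

theorem exists_above (C : Set O1) (hC : C.Countable) : ∃ o, ∀ c ∈ C, c < o := by
  by_contra hcon
  push Not at hcon
  apply uncountable_O1
  have h1 : (⋃ c ∈ C, Set.Iic c).Countable := by
    refine hC.biUnion (fun c _ => ?_)
    rw [← Set.Iio_insert]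
    exact (countable_Iio c).insert _
  refine h1.mono ?_
  intro o _
  obtain ⟨c, hc, hco⟩ := hcon o
  simp only [Set.mem_iUnion]
  exact ⟨c, hc, hco⟩

/-- The chain condition on families of infinite sets. -/
def Chain (s : Set (Set ℕ)) : Prop :=
  (∀ a ∈ s, a.Infinite) ∧ ∀ a ∈ s, ∀ b ∈ s, (a \ b).Finite ∨ (b \ a).Finite

/-- the associated filter -/
def chFilter (s : Set (Set ℕ)) : Filter ℕ := (⨅ a : s, cofinite ⊓ 𝓟 (a : Set ℕ)) ⊓ cofinite

theorem chFilter_neBot {s : Set (Set ℕ)} (hs : Chain s) : (chFilter s).NeBot := by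
  rcases s.eq_empty_or_nonempty with rfl | hne
  · have : chFilter ∅ = cofinite := by
      simp [chFilter]
    rw [this]
    infer_instance
  · have : Nonempty s := hne.to_subtype
    have h1 : chFilter s = ⨅ a : s, cofinite ⊓ 𝓟 (a : Set ℕ) := by
      rw [chFilter, inf_eq_left]
      obtain ⟨a⟩ := this
      exact (iInf_le _ a).trans inf_le_left
    rw [h1]
    refine iInf_neBot_of_directed' ?_ (fun a => (hs.1 a a.2).cofinite_inf_principal_neBot)
    have key : ∀ a b : Set ℕ, (a \ b).Finite → cofinite ⊓ 𝓟 a ≤ cofinite ⊓ 𝓟 b := by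
      intro a b hab
      refine le_inf inf_le_left ?_
      rw [le_principal_iff, mem_inf_principal]
      refine Filter.mem_of_superset hab.compl_mem_cofinite ?_
      intro x hx hxa
      by_contra hxb
      exact hx ⟨hxa, hxb⟩
    intro a b
    rcases hs.2 a a.2 b b.2 with h | h
    · exact ⟨a, le_rfl, key _ _ h⟩
    · exact ⟨b, key _ _ h, le_rfl⟩

theorem exists_pseudo {s : Set (Set ℕ)} (hs : Chain s) (hc : s.Countable) :
    ∃ y : Set ℕ, y.Infinite ∧ ∀ a ∈ s, (y \ a).Finite := by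
  have := chFilter_neBot hs
  have hcs : Countable s := hc.to_subtype
  have hcg : (chFilter s).IsCountablyGenerated := by
    have h1 : (cofinite : Filter ℕ).IsCountablyGenerated := by
      rw [Nat.cofinite_eq_atTop]; infer_instance
    rw [chFilter]
    have h2 : (⨅ a : s, cofinite ⊓ 𝓟 (a : Set ℕ)).IsCountablyGenerated := by
      infer_instance
    infer_instance
  obtain ⟨x, hx⟩ := (chFilter s).exists_seq_tendsto
  refine ⟨Set.range x, ?_, ?_⟩
  · intro hfin
    have h1 : Tendsto x atTop cofinite := hx.mono_right inf_le_right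
    have h2 : ∀ᶠ n in atTop, x n ∈ (Set.range x)ᶜ := h1 hfin.compl_mem_cofinite
    obtain ⟨n, hn⟩ := h2.exists
    exact hn ⟨n, rfl⟩
  · intro a ha
    have h1 : Tendsto x atTop (𝓟 a) := by
      refine hx.mono_right (inf_le_left.trans ((iInf_le _ ⟨a, ha⟩).trans inf_le_right))
    have h2 : ∀ᶠ n in atTop, x n ∈ a := by simpa using h1
    obtain ⟨N, hN⟩ := eventually_atTop.1 h2
    refine ((Set.finite_Iio N).image x).subset ?_
    rintro _ ⟨⟨n, rfl⟩, hn⟩
    refine ⟨n, ?_, rfl⟩
    by_contra hcon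
    exact hn (hN n (not_lt.1 hcon))

theorem exists_generic (hCH : aleph 1 = continuum.{0}) {T : Type} [Nonempty T] (hT : #T ≤ 𝔠)
    (D : T → Set (Set ℕ))
    (hD : ∀ t, ∀ A : Set ℕ, A.Infinite → ∃ A' ⊆ A, A'.Infinite ∧ A' ∈ D t) :
    ∃ p : Ultrafilter ℕ, (p : Filter ℕ) ≤ cofinite ∧ ∀ t, ∃ A ∈ p, A ∈ D t := by
  classical
  have hO : #T ≤ #O1 := by
    rw [Cardinal.mk_ord_toType, hCH]; exact hT
  obtain ⟨j⟩ := Cardinal.le_def _ _ |>.1 hO
  let τ : O1 → T := Function.invFun j
  have hτ : Function.Surjective τ := Function.invFun_surjective j.injective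
  obtain ⟨x, hx⟩ := exists_rec (O := O1) (K := Set ℕ)
    (fun o s y => s.Countable → Chain s → y.Infinite ∧ y ∈ D (τ o) ∧ ∀ a ∈ s, (y \ a).Finite) (by
      intro o s
      by_cases hs : s.Countable ∧ Chain s
      · obtain ⟨y, hy, hy'⟩ := exists_pseudo hs.2 hs.1
        obtain ⟨A', hA', hinf, hAD⟩ := hD (τ o) y hy
        exact ⟨A', fun _ _ => ⟨hinf, hAD, fun a ha =>
          (hy' a ha).subset (Set.sdiff_subset_sdiff_left hA')⟩⟩
      · exact ⟨∅, fun h1 h2 => absurd ⟨h1, h2⟩ hs⟩)
  have hmain : ∀ o, (x o).Infinite ∧ x o ∈ D (τ o) ∧ ∀ i < o, (x o \ x i).Finite := by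
    intro o
    induction o using WellFoundedLT.induction with
    | ind o ih =>
      have h1 : (x '' Set.Iio o).Countable := (countable_Iio o).image x
      have h2 : Chain (x '' Set.Iio o) := by
        refine ⟨?_, ?_⟩
        · rintro _ ⟨i, hi, rfl⟩
          exact (ih i hi).1
        · rintro _ ⟨i, hi, rfl⟩ _ ⟨j, hj, rfl⟩
          rcases lt_trichotomy i j with h | h | h
          · exact Or.inr ((ih j hj).2.2 i h)
          · subst h
            simp
          · exact Or.inl ((ih i hi).2.2 j h)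
      obtain ⟨h3, h4, h5⟩ := hx o h1 h2
      exact ⟨h3, h4, fun i hi => h5 _ ⟨i, hi, rfl⟩⟩
  have hch : Chain (Set.range x) := by
    refine ⟨?_, ?_⟩
    · rintro _ ⟨i, rfl⟩
      exact (hmain i).1
    · rintro _ ⟨i, rfl⟩ _ ⟨j, rfl⟩
      rcases lt_trichotomy i j with h | h | h
      · exact Or.inr ((hmain j).2.2 i h)
      · subst h
        simp
      · exact Or.inl ((hmain i).2.2 j h)
  have hne := chFilter_neBot hch
  refine ⟨Ultrafilter.of (chFilter (Set.range x)), (Ultrafilter.of_le _).trans inf_le_right,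
    fun t => ?_⟩
  obtain ⟨o, rfl⟩ := hτ t
  refine ⟨x o, ?_, (hmain o).2.1⟩
  have h1 : chFilter (Set.range x) ≤ 𝓟 (x o) :=
    inf_le_left.trans ((iInf_le _ ⟨x o, ⟨o, rfl⟩⟩).trans inf_le_right)
  exact ((Ultrafilter.of_le _).trans h1) (mem_principal_self _)

/-- The sum of a sequence of ultrafilters along an ultrafilter. -/
def usum (p : Ultrafilter ℕ) (v : ℕ → Ultrafilter ℕ) : Ultrafilter ℕ :=
  p.bind (fun n => (v n).map (Nat.pair n))

theorem usum_map (p : Ultrafilter ℕ) (v : ℕ → Ultrafilter ℕ) (g : ℕ → ℕ → ℕ) :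
    (usum p v).map (fun k => g k.unpair.1 k.unpair.2) = p.bind (fun n => (v n).map (g n)) := by
  apply Ultrafilter.ext
  intro B
  rw [Ultrafilter.mem_map, usum, mem_bind', mem_bind']
  refine Filter.eventually_congr (Filter.Eventually.of_forall (fun n => ?_))
  rw [Ultrafilter.mem_map, Ultrafilter.mem_map, ← Set.preimage_comp]
  have : (fun k : ℕ => g k.unpair.1 k.unpair.2) ∘ Nat.pair n = g n := by
    funext m
    simp
  rw [this]

theorem exists_sum (hCH : aleph 1 = continuum.{0}) (v : ℕ → Ultrafilter ℕ)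
    (hv : ∀ n, Haus (v n)) : ∃ p : Ultrafilter ℕ, (p : Filter ℕ) ≤ cofinite ∧ Haus (usum p v) := by
  classical
  obtain ⟨p, hp, hpD⟩ := exists_generic hCH (T := (ℕ → ℕ → ℕ) × (ℕ → ℕ → ℕ)) (by simp)
    (fun FG => {A | (∀ n ∈ A, (v n).map (FG.1 n) = (v n).map (FG.2 n)) ∨
      ∃ B : Set ℕ, ∀ n ∈ A, B ∈ (v n).map (FG.1 n) ∧ B ∉ (v n).map (FG.2 n)}) (by
      rintro ⟨F, G⟩ A hA
      by_cases h : (A ∩ {n | (v n).map (F n) = (v n).map (G n)}).Infinite
      · exact ⟨_, Set.inter_subset_left, h, Or.inl (fun n hn => hn.2)⟩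
      · have h2 : (A \ {n | (v n).map (F n) = (v n).map (G n)}).Infinite := by
          intro h3
          apply hA
          rw [← Set.inter_union_sdiff A {n | (v n).map (F n) = (v n).map (G n)}]
          exact (Set.not_infinite.1 h).union h3
        obtain ⟨A', hA', hinf, B, hB⟩ := exists_sep (fun n => (v n).map (F n))
          (fun n => (v n).map (G n)) _ h2 (fun n hn => hn.2)
        exact ⟨A', hA'.trans Set.sdiff_subset, hinf, Or.inr ⟨B, hB⟩⟩)
  refine ⟨p, hp, ?_⟩
  intro f g hfg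
  obtain ⟨A, hA, hAD⟩ := hpD (fun n m => f (Nat.pair n m), fun n m => g (Nat.pair n m))
  have hf : (usum p v).map f = p.bind (fun n => (v n).map (fun m => f (Nat.pair n m))) := by
    rw [← usum_map]
    congr 1
    funext k
    simp
  have hg : (usum p v).map g = p.bind (fun n => (v n).map (fun m => g (Nat.pair n m))) := by
    rw [← usum_map]
    congr 1
    funext k
    simp
  rcases hAD with h | ⟨B, hB⟩
  · have h1 : ∀ᶠ n in (p : Filter ℕ), {k | f k = g k} ∈ (v n).map (Nat.pair n) := by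
      filter_upwards [hA] with n hn
      have h2 := hv n _ _ (h n hn)
      exact h2
    exact h1
  · exfalso
    have h1 : B ∈ (usum p v).map f := by
      rw [hf, mem_bind']
      filter_upwards [hA] with n hn
      exact (hB n hn).1
    rw [hfg, hg, mem_bind'] at h1
    have h2 : ∀ᶠ n in (p : Filter ℕ), n ∈ A := hA
    obtain ⟨n, hn1, hn2⟩ := (h1.and h2).exists
    exact (hB n hn2).2 hn1

end Pool.Agent.R603.HE
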