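import Mathlib
import Pool.Agent.R603.HE.Gen

/-!
Under the continuum hypothesis there is a countably compact invariant directed subspace of `βℕ`
consisting of Hausdorff ultrafilters.
-/

namespace Pool.Agent.R603.HE

open Filter Set Cardinal Topology

theorem RK.trans {U V W : Ultrafilter ℕ} (h1 : RK U V) (h2 : RK V W) : RK U W := by
  obtain ⟨f, rfl⟩ := h1
  obtain ⟨g, rfl⟩ := h2
  exact ⟨f ∘ g, by rw [Ultrafilter.map_map]⟩

theorem RK.refl (U : Ultrafilter ℕ) : RK U U := ⟨id, Ultrafilter.map_id U⟩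

theorem Haus.of_RK {U V : Ultrafilter ℕ} (h : RK U V) (hV : Haus V) : Haus U := by
  obtain ⟨h, rfl⟩ := h
  intro f g hfg
  rw [Ultrafilter.map_map, Ultrafilter.map_map] at hfg
  exact hV _ _ hfg

theorem haus_pure : Haus (pure 0) := by
  intro f g h
  rw [Ultrafilter.map_pure, Ultrafilter.map_pure] at h
  have := Ultrafilter.pure_injective h
  show {n | f n = g n} ∈ (pure 0 : Ultrafilter ℕ)
  exact Ultrafilter.mem_pure.2 this

/-- The upper bound property. -/
def Upper (s : Set (Ultrafilter ℕ)) (y : Ultrafilter ℕ) : Prop :=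
  ∀ u ∈ s, ∀ f : ℕ → ℕ → ℕ, ∃ p : Ultrafilter ℕ, (p : Filter ℕ) ≤ cofinite ∧
    RK (p.bind (fun n => u.map (f n))) y

theorem Upper.rk {s : Set (Ultrafilter ℕ)} {y : Ultrafilter ℕ} (h : Upper s y) {u : Ultrafilter ℕ}
    (hu : u ∈ s) : RK u y := by
  obtain ⟨p, -, hp⟩ := h u hu (fun _ => id)
  have : p.bind (fun _ => u.map id) = u := by
    apply Ultrafilter.ext
    intro B
    rw [mem_bind', Ultrafilter.map_id]
    exact Filter.eventually_const
  rw [this] at hp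
  exact hp

theorem exists_upper (hCH : aleph 1 = continuum.{0}) (s : Set (Ultrafilter ℕ)) (hs : s.Countable)
    (hH : ∀ u ∈ s, Haus u) (hd : ∀ u ∈ s, ∀ v ∈ s, RK u v ∨ RK v u) :
    ∃ y, Haus y ∧ Upper s y := by
  rcases s.eq_empty_or_nonempty with rfl | hne
  · exact ⟨pure 0, haus_pure, fun u hu => absurd hu (Set.notMem_empty u)⟩
  obtain ⟨e, rfl⟩ := hs.exists_eq_range hne
  have hdir : Directed RK e := by
    intro i j
    rcases hd _ ⟨i, rfl⟩ _ ⟨j, rfl⟩ with h | h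
    · exact ⟨j, h, RK.refl _⟩
    · exact ⟨i, RK.refl _, h⟩
  let v : ℕ → Ultrafilter ℕ := fun n => e (hdir.sequence e n)
  have hv : ∀ n, RK (v n) (v (n + 1)) := fun n => hdir.sequence_mono_nat n
  have hv' : ∀ n m, n ≤ m → RK (v n) (v m) := by
    intro n m hnm
    induction hnm with
    | refl => exact RK.refl _
    | step _ ih => exact ih.trans (hv _)
  obtain ⟨p, hp, hpH⟩ := exists_sum hCH v (fun n => hH _ ⟨_, rfl⟩)
  refine ⟨usum p v, hpH, ?_⟩
  rintro _ ⟨a, rfl⟩ f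
  have hN : ∀ n, Encodable.encode a + 1 ≤ n → RK (e a) (v n) := fun n hn =>
    (hdir.rel_sequence a).trans (hv' _ _ hn)
  have hh : ∀ n, ∃ h : ℕ → ℕ, Encodable.encode a + 1 ≤ n → (v n).map h = e a := by
    intro n
    by_cases hn : Encodable.encode a + 1 ≤ n
    · obtain ⟨h, hh⟩ := hN n hn
      exact ⟨h, fun _ => hh⟩
    · exact ⟨id, fun h => absurd h hn⟩
  choose h hh using hh
  refine ⟨p, hp, fun k => f k.unpair.1 (h k.unpair.1 k.unpair.2), ?_⟩
  have h1 := usum_map p v (fun n m => f n (h n m))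
  rw [h1]
  apply Ultrafilter.ext
  intro B
  rw [mem_bind', mem_bind']
  have h2 : ∀ᶠ n in (p : Filter ℕ), Encodable.encode a + 1 ≤ n := by
    have : ∀ᶠ n in cofinite, Encodable.encode a + 1 ≤ n := by
      rw [Nat.cofinite_eq_atTop]
      exact eventually_ge_atTop _
    exact this.filter_mono hp
  refine Filter.eventually_congr ?_
  filter_upwards [h2] with n hn
  rw [← hh n hn, Ultrafilter.map_map]
  rfl

theorem exists_tower (hCH : aleph 1 = continuum.{0}) : ∃ x : O1 → Ultrafilter ℕ,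
    ∀ o, Haus (x o) ∧ Upper (x '' Set.Iio o) (x o) := by
  classical
  obtain ⟨x, hx⟩ := exists_rec (O := O1) (K := Ultrafilter ℕ)
    (fun _ s y => s.Countable → (∀ u ∈ s, Haus u) → (∀ u ∈ s, ∀ v ∈ s, RK u v ∨ RK v u) →
      Haus y ∧ Upper s y) (by
      intro o s
      by_cases hs : s.Countable ∧ (∀ u ∈ s, Haus u) ∧ (∀ u ∈ s, ∀ v ∈ s, RK u v ∨ RK v u)
      · obtain ⟨y, hy⟩ := exists_upper hCH s hs.1 hs.2.1 hs.2.2
        exact ⟨y, fun _ _ _ => hy⟩
      · exact ⟨pure 0, fun h1 h2 h3 => absurd ⟨h1, h2, h3⟩ hs⟩)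
  refine ⟨x, fun o => ?_⟩
  induction o using WellFoundedLT.induction with
  | ind o ih =>
    refine hx o ((countable_Iio o).image x) ?_ ?_
    · rintro _ ⟨i, hi, rfl⟩
      exact (ih i hi).1
    · rintro _ ⟨i, hi, rfl⟩ _ ⟨j, hj, rfl⟩
      rcases lt_trichotomy i j with h | h | h
      · exact Or.inl ((ih j hj).2.rk ⟨i, h, rfl⟩)
      · subst h
        exact Or.inl (RK.refl _)
      · exact Or.inr ((ih i hi).2.rk ⟨j, h, rfl⟩)

/-- The space. -/
theorem exists_space (hCH : aleph 1 = continuum.{0}) : ∃ Y : Set (Ultrafilter ℕ),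
    (∀ U ∈ Y, Haus U) ∧ (∀ U ∈ Y, ∀ f : ℕ → ℕ, U.map f ∈ Y) ∧ (∀ n : ℕ, pure n ∈ Y) ∧
    (∃ U ∈ Y, (U : Filter ℕ) ≤ cofinite) ∧
    (∀ U ∈ Y, ∀ V ∈ Y, ∃ W ∈ Y, ∃ f g : ℕ → ℕ, W.map f = U ∧ W.map g = V) ∧
    IsCountablyCompact Y := by
  obtain ⟨x, hx⟩ := exists_tower hCH
  have hlt : ∀ i j, i < j → RK (x i) (x j) := fun i j h => (hx j).2.rk ⟨i, h, rfl⟩
  let Y : Set (Ultrafilter ℕ) := {U | ∃ o, RK U (x o)}
  have hlim : ∀ u : ℕ → Ultrafilter ℕ, (∀ n, u n ∈ Y) →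
      ∃ p : Ultrafilter ℕ, (p : Filter ℕ) ≤ cofinite ∧ p.bind u ∈ Y := by
    intro u hu
    choose o ho using hu
    obtain ⟨b, hb⟩ := exists_above (Set.range o) (Set.countable_range o)
    have h1 : ∀ n, RK (u n) (x b) := fun n => (ho n).trans (hlt _ _ (hb _ ⟨n, rfl⟩))
    choose f hf using h1
    obtain ⟨b', hb'⟩ := exists_above {b} (Set.countable_singleton b)
    obtain ⟨p, hp, hp'⟩ := (hx b').2 (x b) ⟨b, hb' b rfl, rfl⟩ f
    refine ⟨p, hp, b', ?_⟩
    have : (fun n => (x b).map (f n)) = u := funext hf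
    rw [this] at hp'
    exact hp'
  obtain ⟨o0, -⟩ := exists_above ∅ Set.countable_empty
  have hpure : ∀ n : ℕ, (pure n : Ultrafilter ℕ) ∈ Y := by
    intro n
    refine ⟨o0, fun _ => n, ?_⟩
    apply Ultrafilter.ext
    intro B
    rw [Ultrafilter.mem_map, Ultrafilter.mem_pure]
    by_cases h : n ∈ B
    · have : (fun _ : ℕ => n) ⁻¹' B = Set.univ := by
        ext; simp [h]
      rw [this]
      exact ⟨fun _ => h, fun _ => Filter.univ_mem⟩
    · have : (fun _ : ℕ => n) ⁻¹' B = ∅ := by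
        ext; simp [h]
      rw [this]
      simp [h]
  refine ⟨Y, ?_, ?_, hpure, ?_, ?_, ?_⟩
  · rintro U ⟨o, hU⟩
    exact (hx o).1.of_RK hU
  · rintro U ⟨o, hU⟩ f
    exact ⟨o, RK.trans ⟨f, rfl⟩ hU⟩
  · obtain ⟨p, hp, hp'⟩ := hlim (fun n => pure n) hpure
    refine ⟨_, hp', ?_⟩
    have : p.bind (fun n => (pure n : Ultrafilter ℕ)) = p := by
      apply Ultrafilter.ext
      intro B
      rw [mem_bind']
      rfl
    rw [this]
    exact hp
  · rintro U ⟨o, hU⟩ V ⟨o', hV⟩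
    obtain ⟨b, hb⟩ := exists_above {o, o'} (by simp)
    obtain ⟨f, hf⟩ := hU.trans (hlt o b (hb o (by simp)))
    obtain ⟨g, hg⟩ := hV.trans (hlt o' b (hb o' (by simp)))
    exact ⟨x b, ⟨b, RK.refl _⟩, f, g, hf, hg⟩
  · rw [isCountablyCompact_iff_infinite_subset_has_accPt]
    intro S hSY hS
    let e := hS.natEmbedding
    have heinj : Function.Injective (fun n => (e n : Ultrafilter ℕ)) :=
      Subtype.val_injective.comp e.injective
    obtain ⟨p, hp, hp'⟩ := hlim (fun n => (e n : Ultrafilter ℕ)) (fun n => hSY (e n).2)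
    refine ⟨_, hp', ?_⟩
    have ht : Tendsto (fun n => (e n : Ultrafilter ℕ)) (p : Filter ℕ)
        (𝓝 (p.bind (fun n => (e n : Ultrafilter ℕ)))) := by
      rw [ultrafilterBasis_is_basis.nhds_hasBasis.tendsto_right_iff]
      rintro _ ⟨⟨B, rfl⟩, hB⟩
      exact hB
    rw [accPt_iff_frequently]
    have h1 : ∀ᶠ n in (p : Filter ℕ), (e n : Ultrafilter ℕ) ≠ p.bind (fun n => (e n : Ultrafilter ℕ)) ∧
        (e n : Ultrafilter ℕ) ∈ S := by
      have h2 : ∀ᶠ n in cofinite, (e n : Ultrafilter ℕ) ≠ p.bind (fun n => (e n : Ultrafilter ℕ)) := by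
        have := (Set.finite_singleton (p.bind (fun n => (e n : Ultrafilter ℕ)))).preimage
          (heinj.injOn (s := (fun n => (e n : Ultrafilter ℕ)) ⁻¹' _))
        exact this.compl_mem_cofinite
      exact (h2.filter_mono hp).mono (fun n hn => ⟨hn, (e n).2⟩)
    exact ht.frequently h1.frequently

end Pool.Agent.R603.HE
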