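import Mathlib
import Pool.Agent.R603.HE.Tower
import Pool.Agent.R603.HE.FunExt

/-!
The extensions of `ℕ` obtained from a countably compact invariant directed space of Hausdorff
ultrafilters.
-/

namespace Pool.Agent.R603.HE

open Filter Set Cardinal Topology

section

variable (Y : Set (Ultrafilter ℕ))

theorem map_setChar_iff (U : Ultrafilter ℕ) (A : Set ℕ) :
    U.map (setChar 0 1 A) = pure 1 ↔ A ∈ U := by
  classical
  have h1 : (setChar 0 1 A : ℕ → ℕ) ⁻¹' {1} = A := by
    ext n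
    simp [setChar]
  constructor
  · intro h
    have h2 : ({1} : Set ℕ) ∈ U.map (setChar 0 1 A) := by
      rw [h]; exact Ultrafilter.mem_pure.2 rfl
    rw [Ultrafilter.mem_map, h1] at h2
    exact h2
  · intro h
    apply Ultrafilter.coe_injective
    refine le_antisymm ?_ ?_ |>.symm
    · intro B hB
      have h2 : ({1} : Set ℕ) ∈ U.map (setChar 0 1 A) := by
        rw [Ultrafilter.mem_map, h1]; exact h
      have h3 := Filter.inter_mem hB h2
      obtain ⟨x, hx, hx1⟩ := Ultrafilter.nonempty_of_mem h3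
      rw [Set.mem_singleton_iff] at hx1
      rw [hx1] at hx
      exact Ultrafilter.mem_pure.2 hx
    · intro B hB
      have hB' : (1 : ℕ) ∈ B := Ultrafilter.mem_pure.1 hB
      have : B ∈ U.map (setChar 0 1 A) := by
        rw [Ultrafilter.mem_map]
        refine Filter.mem_of_superset h ?_
        intro x hx
        show setChar 0 1 A x ∈ B
        rw [setChar, if_pos hx]
        exact hB'
      exact this

theorem map_eq_of_eventually {U : Ultrafilter ℕ} {f g : ℕ → ℕ}
    (h : ∀ᶠ n in (U : Filter ℕ), f n = g n) : U.map f = U.map g :=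
  Ultrafilter.coe_injective (Filter.map_congr h)

theorem map_pure' (f : ℕ → ℕ) (n : ℕ) : (pure n : Ultrafilter ℕ).map f = pure (f n) :=
  Ultrafilter.map_pure f n

/-- The functional extension. -/
noncomputable def funExt (hH : ∀ U ∈ Y, Haus U) (hm : ∀ U ∈ Y, ∀ f : ℕ → ℕ, U.map f ∈ Y)
    (hp : ∀ n : ℕ, pure n ∈ Y) (hnp : ∃ U ∈ Y, (U : Filter ℕ) ≤ cofinite)
    (hd : ∀ U ∈ Y, ∀ V ∈ Y, ∃ W ∈ Y, ∃ f g : ℕ → ℕ, W.map f = U ∧ W.map g = V) :
    FunExt ℕ 0 1 where
  Y := Y
  incl n := ⟨pure n, hp n⟩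
  incl_injective := fun n m h => Ultrafilter.pure_injective (congrArg Subtype.val h)
  proper := by
    obtain ⟨U, hU, hUc⟩ := hnp
    refine ⟨⟨U, hU⟩, ?_⟩
    rintro ⟨n, hn⟩
    have h1 : (pure n : Ultrafilter ℕ) = U := congrArg Subtype.val hn
    have h2 : ({n}ᶜ : Set ℕ) ∈ (U : Filter ℕ) := hUc (Set.finite_singleton n).compl_mem_cofinite
    rw [← h1] at h2
    exact (Ultrafilter.mem_pure.1 h2) rfl
  star f U := ⟨U.1.map f, hm U.1 U.2 f⟩
  star_incl f n := Subtype.ext (map_pure' f n)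
  comp f g := by
    funext U
    exact Subtype.ext (Ultrafilter.map_map _ _ _).symm
  equ f g := by
    classical
    funext U
    apply Subtype.ext
    by_cases h : U.1.map f = U.1.map g
    · have h1 : (⟨U.1.map f, hm U.1 U.2 f⟩ : Y) = ⟨U.1.map g, hm U.1 U.2 g⟩ := Subtype.ext h
      have hR : eqChar (D := Y) (⟨pure 0, hp 0⟩ : Y) ⟨pure 1, hp 1⟩
          (fun U : Y => (⟨U.1.map f, hm U.1 U.2 f⟩ : Y))
          (fun U : Y => (⟨U.1.map g, hm U.1 U.2 g⟩ : Y)) U = ⟨pure 1, hp 1⟩ := if_pos h1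
      refine Eq.trans ?_ (congrArg Subtype.val hR).symm
      have h2 := hH U.1 U.2 f g h
      have h3 : U.1.map (eqChar 0 1 f g) = U.1.map (fun _ => 1) :=
        map_eq_of_eventually (h2.mono (fun n hn => if_pos hn))
      have h4 : U.1.map (fun _ => 1) = pure 1 := by
        have h5 := (map_setChar_iff U.1 Set.univ).2 Filter.univ_mem
        have h6 : (setChar 0 1 Set.univ : ℕ → ℕ) = fun _ => 1 := by
          funext n; simp [setChar]
        rw [h6] at h5
        exact h5
      exact h3.trans h4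
    · have h1 : (⟨U.1.map f, hm U.1 U.2 f⟩ : Y) ≠ ⟨U.1.map g, hm U.1 U.2 g⟩ :=
        fun h2 => h (congrArg Subtype.val h2)
      have hR : eqChar (D := Y) (⟨pure 0, hp 0⟩ : Y) ⟨pure 1, hp 1⟩
          (fun U : Y => (⟨U.1.map f, hm U.1 U.2 f⟩ : Y))
          (fun U : Y => (⟨U.1.map g, hm U.1 U.2 g⟩ : Y)) U = ⟨pure 0, hp 0⟩ := if_neg h1
      refine Eq.trans ?_ (congrArg Subtype.val hR).symm
      have h2 : ∀ᶠ n in (U.1 : Filter ℕ), ¬ f n = g n := by
        rw [Ultrafilter.eventually_not]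
        intro h3
        exact h (map_eq_of_eventually h3)
      have h3 : U.1.map (eqChar 0 1 f g) = U.1.map (fun _ => 0) :=
        map_eq_of_eventually (h2.mono (fun n hn => if_neg hn))
      have h4 : U.1.map (fun _ => 0) = pure 0 := by
        have h5 := (map_setChar_iff U.1 Set.univ).2 Filter.univ_mem
        have h6 : (setChar 0 1 Set.univ : ℕ → ℕ) = fun _ => 1 := by
          funext n; simp [setChar]
        rw [h6] at h5
        have h7 := congrArg (Ultrafilter.map (fun _ : ℕ => (0 : ℕ))) h5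
        rw [Ultrafilter.map_map, map_pure'] at h7
        exact h7
      exact h3.trans h4
  dir ξ η := by
    obtain ⟨W, hW, f, g, hf, hg⟩ := hd ξ.1 ξ.2 η.1 η.2
    exact ⟨f, g, ⟨W, hW⟩, Subtype.ext hf, Subtype.ext hg⟩

theorem sTopology_funExt (hH hm hp hnp hd) :
    (funExt Y hH hm hp hnp hd).sTopology = (inferInstance : TopologicalSpace Y) := by
  have h1 : (inferInstance : TopologicalSpace Y) =
      TopologicalSpace.induced Subtype.val (TopologicalSpace.generateFrom (ultrafilterBasis ℕ)) :=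
    rfl
  rw [h1, induced_generateFrom_eq, FunExt.sTopology]
  congr 1
  ext S
  constructor
  · rintro ⟨A, rfl⟩
    refine ⟨{U | A ∈ U}, ⟨A, rfl⟩, ?_⟩
    ext U
    have := map_setChar_iff U.1 A
    constructor
    · intro h
      exact Subtype.ext (this.2 h)
    · intro h
      exact this.1 (congrArg Subtype.val h)
  · rintro ⟨_, ⟨A, rfl⟩, rfl⟩
    refine ⟨A, ?_⟩
    ext U
    have := map_setChar_iff U.1 A
    constructor
    · intro h
      exact Subtype.ext (this.2 h)
    · intro h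
      exact this.1 (congrArg Subtype.val h)

theorem mem_closure_incl (hp : ∀ n : ℕ, pure n ∈ Y) (A : Set ℕ) (ξ : Y) :
    ξ ∈ closure ((fun n : ℕ => (⟨pure n, hp n⟩ : Y)) '' A) ↔ A ∈ ξ.1 := by
  constructor
  · intro h
    have hcl : IsClosed {U : Y | A ∈ U.1} :=
      (ultrafilter_isClosed_basic A).preimage continuous_subtype_val
    refine closure_minimal ?_ hcl h
    rintro _ ⟨n, hn, rfl⟩
    exact Ultrafilter.mem_pure.2 hn
  · intro h
    rw [mem_closure_iff_nhds]
    intro W hW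
    rw [nhds_subtype_eq_comap, Filter.mem_comap] at hW
    obtain ⟨W', hW', hWW⟩ := hW
    rw [ultrafilterBasis_is_basis.mem_nhds_iff] at hW'
    obtain ⟨_, ⟨B, rfl⟩, hB, hBW⟩ := hW'
    obtain ⟨n, hn⟩ := Ultrafilter.nonempty_of_mem (Filter.inter_mem h hB)
    refine ⟨⟨pure n, hp n⟩, hWW (hBW ?_), ⟨n, hn.1, rfl⟩⟩
    exact Ultrafilter.mem_pure.2 hn.2

/-- The topological extension. -/
def topExt (hm : ∀ U ∈ Y, ∀ f : ℕ → ℕ, U.map f ∈ Y) (hp : ∀ n : ℕ, pure n ∈ Y) : TopExt ℕ where
  Y := Y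
  top := inferInstance
  t1 := inferInstance
  incl n := ⟨pure n, hp n⟩
  incl_injective := fun n m h => Ultrafilter.pure_injective (congrArg Subtype.val h)
  dense := by
    intro ξ
    have := (mem_closure_incl Y hp Set.univ ξ).2 Filter.univ_mem
    rwa [Set.image_univ] at this
  discrete := by
    rw [discreteTopology_iff_isOpen_singleton]
    rintro ⟨_, n, rfl⟩
    rw [isOpen_induced_iff]
    refine ⟨{U : Y | ({n} : Set ℕ) ∈ U.1}, (ultrafilter_isOpen_basic {n}).preimage continuous_subtype_val, ?_⟩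
    ext ⟨_, m, rfl⟩
    simp only [Set.mem_preimage, Set.mem_singleton_iff]
    constructor
    · intro h
      have h1 : m = n := Ultrafilter.mem_pure.1 h
      rw [h1]
    · intro h
      have h1 : m = n := Ultrafilter.pure_injective (congrArg (fun z => z.1.1) h)
      exact Ultrafilter.mem_pure.2 h1
  star f U := ⟨U.1.map f, hm U.1 U.2 f⟩
  continuous_star f := by
    refine Continuous.subtype_mk ?_ _
    rw [continuous_generateFrom_iff]
    rintro _ ⟨B, rfl⟩
    exact (ultrafilter_isOpen_basic (f ⁻¹' B)).preimage continuous_subtype_val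
  star_incl f n := Subtype.ext (map_pure' f n)
  comp f g := by
    funext U
    exact Subtype.ext (Ultrafilter.map_map _ _ _)
  ident f A hA ξ hξ := by
    apply Subtype.ext
    have h1 : A ∈ ξ.1 := (mem_closure_incl Y hp A ξ).1 hξ
    have h2 : ξ.1.map f = ξ.1.map id :=
      map_eq_of_eventually (Filter.mem_of_superset h1 hA)
    rw [Ultrafilter.map_id] at h2
    exact h2

theorem isHyper_topExt (hH : ∀ U ∈ Y, Haus U) (hm : ∀ U ∈ Y, ∀ f : ℕ → ℕ, U.map f ∈ Y)
    (hp : ∀ n : ℕ, pure n ∈ Y)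
    (hd : ∀ U ∈ Y, ∀ V ∈ Y, ∃ W ∈ Y, ∃ f g : ℕ → ℕ, W.map f = U ∧ W.map g = V) :
    (topExt Y hm hp).IsHyper := by
  refine ⟨fun f g => ⟨fun h ξ h2 => ?_, fun h n h2 => ?_⟩, fun n => n.unpair.1,
    fun n => n.unpair.2, fun ξ η => ?_⟩
  · have h3 : ξ.1.map f = ξ.1.map g := congrArg Subtype.val h2
    obtain ⟨n, hn⟩ := Ultrafilter.nonempty_of_mem (hH ξ.1 ξ.2 f g h3)
    exact h n hn
  · refine h ⟨pure n, hp n⟩ (Subtype.ext ?_)
    show (pure n : Ultrafilter ℕ).map f = (pure n : Ultrafilter ℕ).map g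
    rw [map_pure', map_pure', h2]
  · obtain ⟨W, hW, f, g, hf, hg⟩ := hd ξ.1 ξ.2 η.1 η.2
    refine ⟨⟨W.map (fun n => Nat.pair (f n) (g n)), hm W hW _⟩, Subtype.ext ?_, Subtype.ext ?_⟩
    · show (W.map (fun n => Nat.pair (f n) (g n))).map (fun n => n.unpair.1) = ξ.1
      rw [Ultrafilter.map_map, ← hf]
      congr 1
      funext n
      simp
    · show (W.map (fun n => Nat.pair (f n) (g n))).map (fun n => n.unpair.2) = η.1
      rw [Ultrafilter.map_map, ← hg]
      congr 1
      funext n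
      simp

end

theorem exists_funExt (hCH : aleph 1 = continuum.{0}) : ∃ E : FunExt ℕ 0 1,
    @T2Space E.Y E.sTopology ∧ @CountablyCompactSpace E.Y E.sTopology := by
  obtain ⟨Y, hH, hm, hp, hnp, hd, hcc⟩ := exists_space hCH
  refine ⟨funExt Y hH hm hp hnp hd, ?_, ?_⟩
  · rw [sTopology_funExt]
    exact (inferInstance : T2Space Y)
  · rw [sTopology_funExt]
    exact isCountablyCompact_iff_countablyCompactSpace.1 hcc

theorem exists_topExt (hCH : aleph 1 = continuum.{0}) : ∃ E : TopExt ℕ, E.IsHyper ∧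
    @T2Space E.Y E.top ∧ @CountablyCompactSpace E.Y E.top := by
  obtain ⟨Y, hH, hm, hp, hnp, hd, hcc⟩ := exists_space hCH
  refine ⟨topExt Y hm hp, isHyper_topExt Y hH hm hp hd, ?_, ?_⟩
  · exact (inferInstance : T2Space Y)
  · exact isCountablyCompact_iff_countablyCompactSpace.1 hcc

end Pool.Agent.R603.HE
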